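import Mathlib
import Pool.Agent.Helper259.AbsHt

set_option autoImplicit false

/-!
# The theorem of Northcott for the absolute height
-/

namespace Pool.Agent.H58W

open Polynomial NumberField Height Module
open Pool.Agent.Helper259.AbsHt

lemma infinitePlace_le_mulHeight₁ {K : Type*} [Field K] [NumberField K] (x : K)
    (v : InfinitePlace K) : v x ≤ mulHeight₁ x := by
  classical
  rw [NumberField.mulHeight₁_eq]
  have h1 : (1 : ℝ) ≤ ∏ᶠ v : FinitePlace K, max (v x) 1 := one_le_finprod fun _ => le_max_right _ _
  have h2 : max (v x) 1 ≤ ∏ w : InfinitePlace K, max (w x) 1 ^ w.mult := by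
    calc max (v x) 1 = ∏ w : InfinitePlace K, (if w = v then max (v x) 1 else 1) := by
          rw [Finset.prod_ite_eq']; simp
      _ ≤ _ := by
          apply Finset.prod_le_prod
          · intro w _
            split_ifs
            · positivity
            · exact zero_le_one
          · intro w _
            split_ifs with h
            · subst h
              exact le_self_pow₀ (le_max_right _ _) (InfinitePlace.mult_ne_zero)
            · exact one_le_pow₀ (le_max_right _ _)
  calc v x ≤ max (v x) 1 := le_max_left _ _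
    _ ≤ (∏ w : InfinitePlace K, max (w x) 1 ^ w.mult) * 1 := by rw [mul_one]; exact h2
    _ ≤ _ := by
        apply mul_le_mul_of_nonneg_left h1
        exact le_trans zero_le_one ((le_max_right (v x) 1).trans h2)

lemma norm_embedding_le_mulHeight₁ {K : Type*} [Field K] [NumberField K] (x : K)
    (φ : K →+* ℂ) : ‖φ x‖ ≤ mulHeight₁ x := by
  have := infinitePlace_le_mulHeight₁ x (InfinitePlace.mk φ)
  rwa [InfinitePlace.apply] at this

/-- integers of bounded degree all of whose conjugates are bounded are finite in number -/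
lemma finite_integral (D : ℕ) (R : ℝ) :
    {β : Qbar | IsIntegral ℤ β ∧ (minpoly ℤ β).natDegree ≤ D ∧
      ∀ z ∈ ((minpoly ℤ β).map (Int.castRingHom ℂ)).roots, ‖z‖ ≤ R}.Finite := by
  classical
  have hfin := Polynomial.finite_mahlerMeasure_le D (⟨(max 1 R) ^ D, by positivity⟩ : NNReal)
  have hfin2 : (⋃ p ∈ {p : ℤ[X] | p.natDegree ≤ D ∧
      (p.map (Int.castRingHom ℂ)).mahlerMeasure ≤ (⟨(max 1 R) ^ D, by positivity⟩ : NNReal)},
      (p.map (algebraMap ℤ Qbar)).roots.toFinset : Set Qbar).Finite := by
    apply hfin.biUnion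
    intro p _
    exact Finset.finite_toSet _
  refine hfin2.subset ?_
  rintro β ⟨hint, hdeg, hroots⟩
  simp only [Set.mem_iUnion]
  refine ⟨minpoly ℤ β, ⟨hdeg, ?_⟩, ?_⟩
  · rw [mahlerMeasure_eq_leadingCoeff_mul_prod_roots]
    have hmon : ((minpoly ℤ β).map (Int.castRingHom ℂ)).Monic := (minpoly.monic hint).map _
    rw [hmon.leadingCoeff, norm_one, one_mul]
    have hcard : Multiset.card ((minpoly ℤ β).map (Int.castRingHom ℂ)).roots ≤ D := by
      refine (card_roots' _).trans ?_
      rw [(minpoly.monic hint).natDegree_map]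
      exact hdeg
    show _ ≤ (max 1 R) ^ D
    calc (((minpoly ℤ β).map (Int.castRingHom ℂ)).roots.map fun a => max 1 ‖a‖).prod
        ≤ (((minpoly ℤ β).map (Int.castRingHom ℂ)).roots.map fun _ => max 1 R).prod := by
          apply Multiset.prod_map_le_prod_map₀
          · intro i _; positivity
          · intro i hi
            exact max_le_max le_rfl (hroots i hi)
      _ = (max 1 R) ^ Multiset.card ((minpoly ℤ β).map (Int.castRingHom ℂ)).roots := by simp
      _ ≤ _ := pow_le_pow_right₀ (le_max_left _ _) hcard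
  · simp only [Finset.mem_coe, Multiset.mem_toFinset]
    rw [mem_roots]
    · rw [IsRoot.def, eval_map_algebraMap, minpoly.aeval]
    · exact ((minpoly.monic hint).map _).ne_zero

theorem northcott (D : ℕ) (B : ℝ) :
    {α : Qbar | (minpoly ℚ α).natDegree ≤ D ∧ absLogHeight ![1, α] ≤ B}.Finite := by
  classical
  set M : ℝ := Real.exp (max B 0 * D) with hM
  have hM1 : 1 ≤ M := Real.one_le_exp (by positivity)
  have hfin : (⋃ n ∈ Finset.Icc 1 ⌊M⌋₊, {α : Qbar | (n : Qbar) * α ∈
      {β : Qbar | IsIntegral ℤ β ∧ (minpoly ℤ β).natDegree ≤ D ∧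
      ∀ z ∈ ((minpoly ℤ β).map (Int.castRingHom ℂ)).roots, ‖z‖ ≤ M * M}}).Finite := by
    apply (Finset.finite_toSet _).biUnion
    intro n hn
    have hn1 : 1 ≤ n := (Finset.mem_Icc.mp hn).1
    apply (finite_integral D (M * M)).preimage
    intro a _ b _ hab
    have h0 : (n : Qbar) ≠ 0 := by
      have : n ≠ 0 := by omega
      exact_mod_cast this
    exact mul_left_cancel₀ h0 hab
  refine hfin.subset ?_
  rintro α ⟨hdeg, hht⟩
  have hαint : IsIntegral ℚ α := ((AlgebraicClosure.isAlgebraic ℚ).isAlgebraic α).isIntegral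
  let K := IntermediateField.adjoin ℚ {α}
  have hK : NumberField K :=
    { to_charZero := inferInstance
      to_finiteDimensional := IntermediateField.adjoin.finiteDimensional hαint }
  let y : K := IntermediateField.AdjoinSimple.gen ℚ α
  have hy : (y : Qbar) = α := IntermediateField.AdjoinSimple.coe_gen ℚ α
  have hfr : finrank ℚ K = (minpoly ℚ α).natDegree := IntermediateField.adjoin.finrank hαint
  have hlog : logHeight₁ y ≤ max B 0 * D := by
    rw [logHeight₁_eq_logHeight, logHeight_swap]
    have h1 := val_eq K ![1, y]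
    have e : (fun i => ((![1, y] i : K) : Qbar)) = ![1, α] := by
      funext i
      fin_cases i
      · simp
      · simpa using hy
    rw [e] at h1
    have hpos := finrank_pos' K
    rw [eq_div_iff hpos.ne'] at h1
    rw [← h1]
    have h2 : (finrank ℚ K : ℝ) ≤ D := by rw [hfr]; exact_mod_cast hdeg
    calc absLogHeight ![1, α] * finrank ℚ K ≤ max B 0 * finrank ℚ K :=
          mul_le_mul_of_nonneg_right (hht.trans (le_max_left _ _)) hpos.le
      _ ≤ max B 0 * D := mul_le_mul_of_nonneg_left h2 (le_max_right _ _)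
  have hmul : mulHeight₁ y ≤ M := by
    rw [logHeight₁_eq_log_mulHeight₁] at hlog
    exact (Real.log_le_iff_le_exp (mulHeight₁_pos y)).mp hlog
  obtain ⟨n, hn0, hn1, hn2⟩ := exists_nat_le_mulHeight₁ y
  simp only [Set.mem_iUnion]
  refine ⟨n, ?_, ?_⟩
  · rw [Finset.mem_Icc]
    exact ⟨Nat.one_le_iff_ne_zero.mpr hn0, Nat.le_floor (hn1.trans hmul)⟩
  · have hint : IsIntegral ℤ ((n : Qbar) * α) := by
      have := hn2.map (algebraMap K Qbar).toIntAlgHom
      rw [← hy]
      simpa using this
    have hmp : (minpoly ℤ ((n : Qbar) * α)).map (algebraMap ℤ ℚ) = minpoly ℚ ((n : Qbar) * α) :=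
      (minpoly.isIntegrallyClosed_eq_field_fractions' ℚ hint).symm
    have hmem : (n : Qbar) * α ∈ K := K.mul_mem (natCast_mem K n)
      (IntermediateField.mem_adjoin_simple_self ℚ α)
    have hmp2 : minpoly ℚ ((n : Qbar) * α) = minpoly ℚ ((n : K) * y) := by
      rw [← minpoly.algebraMap_eq (algebraMap K Qbar).injective ((n : K) * y)]
      congr 1
    refine ⟨hint, ?_, ?_⟩
    · have h1 : (minpoly ℤ ((n : Qbar) * α)).natDegree = (minpoly ℚ ((n : Qbar) * α)).natDegree := by
        rw [← hmp, (minpoly.monic hint).natDegree_map]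
      rw [h1, hmp2]
      refine (minpoly.natDegree_le ((n : K) * y)).trans ?_
      rw [hfr]
      exact hdeg
    · intro z hz
      have hz2 : z ∈ (minpoly ℚ ((n : K) * y)).rootSet ℂ := by
        rw [← hmp2, ← hmp, mem_rootSet]
        constructor
        · exact ((minpoly.monic hint).map _).ne_zero
        · have hz3 := (mem_roots'.mp hz).2
          rw [IsRoot.def, eval_map] at hz3
          rw [aeval_map_algebraMap, aeval_def]
          exact hz3
      rw [← NumberField.Embeddings.range_eval_eq_rootSet_minpoly K ℂ] at hz2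
      obtain ⟨φ, hφ⟩ := hz2
      simp only at hφ
      rw [← hφ, map_mul, map_natCast, norm_mul, Complex.norm_natCast]
      apply mul_le_mul (hn1.trans hmul) ((norm_embedding_le_mulHeight₁ y φ).trans hmul)
        (norm_nonneg _) (by linarith)

end Pool.Agent.H58W
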