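import Mathlib

set_option autoImplicit false

/-!
# Gaussian periods of two-power degree
-/

namespace Pool.Agent.H58W

open Finset

section

variable (q n : ℕ) [Fact q.Prime]

open Classical in
/-- the group of `2 ^ n`-th powers in `(ZMod q)ˣ` -/
noncomputable def pw : Finset (ZMod q)ˣ := univ.filter (fun x => ∃ c : (ZMod q)ˣ, c ^ (2 ^ n) = x)

lemma mem_pw (x : (ZMod q)ˣ) : x ∈ pw q n ↔ ∃ c : (ZMod q)ˣ, c ^ (2 ^ n) = x := by
  classical
  simp [pw]

/-- the Gaussian period -/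
noncomputable def per {E : Type*} [CommSemiring E] (z : E) (b : (ZMod q)ˣ) : E :=
  ∑ x ∈ pw q n, z ^ ((b * x : (ZMod q)ˣ) : ZMod q).val

lemma map_per {E E' : Type*} [CommSemiring E] [CommSemiring E'] (f : E →+* E') (z : E)
    (b : (ZMod q)ˣ) : f (per q n z b) = per q n (f z) b := by
  simp [per, map_sum, map_pow]

lemma pow_val_mul {E : Type*} [CommSemiring E] (z : E) (hz : z ^ q = 1) (a b : ZMod q) :
    (z ^ a.val) ^ b.val = z ^ (a * b).val := by
  rw [← pow_mul, ZMod.val_mul, ← pow_eq_pow_mod _ hz]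

lemma per_pow {E : Type*} [CommSemiring E] (z : E) (hz : z ^ q = 1) (a b : (ZMod q)ˣ) :
    per q n (z ^ (a : ZMod q).val) b = per q n z (a * b) := by
  unfold per
  refine sum_congr rfl fun x _ => ?_
  rw [pow_val_mul q z hz, mul_assoc a b x, Units.val_mul a (b * x)]

lemma per_mul_pow {E : Type*} [CommSemiring E] (z : E) (b c : (ZMod q)ˣ) :
    per q n z (b * c ^ (2 ^ n)) = per q n z b := by
  unfold per
  refine sum_bij' (fun x _ => c ^ (2 ^ n) * x) (fun x _ => (c ^ (2 ^ n))⁻¹ * x) ?_ ?_ ?_ ?_ ?_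
  · intro x hx
    obtain ⟨d, rfl⟩ := (mem_pw q n x).mp hx
    exact (mem_pw q n _).mpr ⟨c * d, by rw [mul_pow]⟩
  · intro x hx
    obtain ⟨d, rfl⟩ := (mem_pw q n x).mp hx
    exact (mem_pw q n _).mpr ⟨c⁻¹ * d, by rw [mul_pow, inv_pow]⟩
  · intro x _; simp
  · intro x _; simp
  · intro x _
    rw [mul_assoc]

/-- a nonsquare generates `(ZMod q)ˣ` modulo the `2 ^ n`-th powers -/
lemma exists_pow (a b : (ZMod q)ˣ) (ha : ¬ IsSquare a) :
    ∃ k < 2 ^ n, ∃ c : (ZMod q)ˣ, b = a ^ k * c ^ (2 ^ n) := by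
  obtain ⟨g, hg⟩ := IsCyclic.exists_generator (α := (ZMod q)ˣ)
  obtain ⟨s, hs⟩ := hg a
  obtain ⟨t, ht⟩ := hg b
  simp only at hs ht
  have hodd : ¬ (2 : ℤ) ∣ s := by
    rintro ⟨r, hr⟩
    apply ha
    refine ⟨g ^ r, ?_⟩
    rw [← hs, hr, ← zpow_add]
    congr 1
    ring
  have hco : IsCoprime s ((2 : ℤ) ^ n) := by
    apply IsCoprime.pow_right
    rw [Int.isCoprime_iff_gcd_eq_one]
    have h2 : Nat.Prime 2 := Nat.prime_two
    rw [Int.gcd_comm]
    have := (Nat.Prime.coprime_iff_not_dvd h2 (n := s.natAbs)).mpr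
      (by rwa [← Int.natCast_dvd_natCast, Int.dvd_natAbs])
    exact this
  obtain ⟨u, w, huw⟩ := hco
  -- `k ≡ t u mod 2^n`
  have hpos : (0 : ℤ) < 2 ^ n := by positivity
  set k : ℤ := (t * u) % 2 ^ n with hk
  have hk0 : 0 ≤ k := Int.emod_nonneg _ hpos.ne'
  have hk1 : k < 2 ^ n := Int.emod_lt_of_pos _ hpos
  obtain ⟨r, hr⟩ : ∃ r : ℤ, t * u = k + 2 ^ n * r :=
    ⟨(t * u) / 2 ^ n, by rw [hk]; exact (Int.emod_add_mul_ediv _ _).symm⟩
  refine ⟨k.toNat, ?_, g ^ (s * r + t * w), ?_⟩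
  · have : (k.toNat : ℤ) < ((2 ^ n : ℕ) : ℤ) := by
      rw [Int.toNat_of_nonneg hk0]; push_cast; exact hk1
    exact_mod_cast this
  · rw [← hs, ← ht]
    have e1 : (g ^ s) ^ k.toNat = g ^ (s * k) := by
      rw [← zpow_natCast, ← zpow_mul, Int.toNat_of_nonneg hk0]
    have e2 : (g ^ (s * r + t * w)) ^ (2 ^ n) = g ^ ((s * r + t * w) * 2 ^ n) := by
      rw [← zpow_natCast, ← zpow_mul]
      congr 1
    rw [e1, e2, ← zpow_add]
    congr 1
    have : t = t * (u * s + w * 2 ^ n) := by rw [huw, mul_one]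
    calc t = t * (u * s + w * 2 ^ n) := this
      _ = (t * u) * s + t * w * 2 ^ n := by ring
      _ = (k + 2 ^ n * r) * s + t * w * 2 ^ n := by rw [hr]
      _ = _ := by ring

lemma not_pw (a : (ZMod q)ˣ) (ha : ¬ IsSquare a) (hn : 2 ^ n ∣ q - 1) (s : ℕ) (hs0 : 0 < s)
    (hs1 : s < 2 ^ n) : a ^ s ∉ pw q n := by
  intro hmem
  obtain ⟨c, hc⟩ := (mem_pw q n _).mp hmem
  obtain ⟨g, hg⟩ := IsCyclic.exists_generator (α := (ZMod q)ˣ)
  obtain ⟨r, hr⟩ := hg a
  obtain ⟨t, ht⟩ := hg c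
  simp only at hr ht
  have hodd : ¬ (2 : ℤ) ∣ r := by
    rintro ⟨r', hr'⟩
    apply ha
    refine ⟨g ^ r', ?_⟩
    rw [← hr, hr', ← zpow_add]
    congr 1
    ring
  have hord : orderOf g = q - 1 := by
    rw [orderOf_eq_card_of_forall_mem_zpowers hg, Nat.card_eq_fintype_card,
      ZMod.card_units_eq_totient, Nat.totient_prime (Fact.out : q.Prime)]
  have e : g ^ (t * 2 ^ n - r * s) = 1 := by
    rw [zpow_sub, mul_inv_eq_one]
    have e1 : g ^ (t * 2 ^ n : ℤ) = c ^ (2 ^ n) := by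
      rw [← ht, ← zpow_natCast, ← zpow_mul]
      congr 1
    have e2 : g ^ (r * s : ℤ) = a ^ s := by
      rw [← hr, ← zpow_natCast, ← zpow_mul]
    rw [e1, e2, hc]
  have h1 : ((q - 1 : ℕ) : ℤ) ∣ t * 2 ^ n - r * s := by
    rw [← hord]; exact orderOf_dvd_iff_zpow_eq_one.mpr e
  have h2 : ((2 : ℤ) ^ n) ∣ t * 2 ^ n - r * s := by
    refine dvd_trans ?_ h1
    exact_mod_cast hn
  have h3 : ((2 : ℤ) ^ n) ∣ r * s := by
    have := dvd_sub (Dvd.intro_left t rfl : (2 : ℤ) ^ n ∣ t * 2 ^ n) h2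
    simpa using this
  have hco : IsCoprime ((2 : ℤ) ^ n) r := by
    apply IsCoprime.pow_left
    rw [Int.isCoprime_iff_gcd_eq_one]
    have h2 : Nat.Prime 2 := Nat.prime_two
    have := (Nat.Prime.coprime_iff_not_dvd h2 (n := r.natAbs)).mpr
      (by rwa [← Int.natCast_dvd_natCast, Int.dvd_natAbs])
    exact this
  have h4 : ((2 : ℤ) ^ n) ∣ (s : ℤ) := hco.dvd_of_dvd_mul_left h3
  have h5 : 2 ^ n ∣ s := by exact_mod_cast h4
  exact absurd (Nat.le_of_dvd hs0 h5) (by omega)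

lemma val_units_inj (x y : (ZMod q)ˣ) (h : (x : ZMod q).val = (y : ZMod q).val) : x = y :=
  Units.ext (ZMod.val_injective q h)

/-- the period polynomial relation forces `a` to be a `2 ^ n`-th power -/
lemma mem_of_relation {E : Type*} [Field E] (z : E) (hz : IsPrimitiveRoot z q) (a : (ZMod q)ˣ)
    (h : ∀ b : (ZMod q)ˣ, per q n z b = per q n z (a * b)) : a ∈ pw q n := by
  classical
  by_contra ha
  have hq1 : 1 < q := (Fact.out : q.Prime).one_lt
  let W : Polynomial E := ∑ x ∈ pw q n, Polynomial.X ^ ((x : (ZMod q)ˣ) : ZMod q).val -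
    ∑ x ∈ pw q n, Polynomial.X ^ ((a * x : (ZMod q)ˣ) : ZMod q).val
  have hdeg : W.natDegree < q := by
    have h1 : ∀ f : (ZMod q)ˣ → (ZMod q)ˣ, (∑ x ∈ pw q n,
        (Polynomial.X : Polynomial E) ^ ((f x : (ZMod q)ˣ) : ZMod q).val).natDegree ≤ q - 1 := by
      intro f
      apply Polynomial.natDegree_sum_le_of_forall_le
      intro x _
      rw [Polynomial.natDegree_X_pow]
      have := ZMod.val_lt ((f x : (ZMod q)ˣ) : ZMod q)
      omega
    have h2 := Polynomial.natDegree_sub_le_of_le (h1 id) (h1 (fun x => a * x))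
    rw [max_self] at h2
    have h3 : W.natDegree ≤ q - 1 := h2
    omega
  have hroot : ∀ i < q, W.eval (z ^ i) = 0 := by
    intro i hi
    by_cases hi0 : i = 0
    · subst hi0
      simp [W, Polynomial.eval_finsetSum]
    · -- `i` gives a unit
      have hne : ((i : ℕ) : ZMod q) ≠ 0 := by
        intro h0
        rw [ZMod.natCast_eq_zero_iff] at h0
        exact absurd (Nat.le_of_dvd (by omega) h0) (by omega)
      have hval : ((Units.mk0 ((i : ℕ) : ZMod q) hne : (ZMod q)ˣ) : ZMod q).val = i := by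
        rw [Units.val_mk0]
        exact ZMod.val_cast_of_lt hi
      set b : (ZMod q)ˣ := Units.mk0 ((i : ℕ) : ZMod q) hne with hb
      have hzq : z ^ q = 1 := hz.pow_eq_one
      have e1 : W.eval (z ^ i) = per q n (z ^ i) 1 - per q n (z ^ i) a := by
        simp [W, Polynomial.eval_finsetSum, per]
      rw [e1, ← hval, per_pow q n z hzq, per_pow q n z hzq, mul_one, h b, mul_comm a b, sub_self]
  have hW : W = 0 := by
    apply Polynomial.eq_zero_of_natDegree_lt_card_of_eval_eq_zero' W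
      ((Finset.range q).image (fun i => z ^ i))
    · intro r hr
      obtain ⟨i, hi, rfl⟩ := Finset.mem_image.mp hr
      exact hroot i (Finset.mem_range.mp hi)
    · rw [Finset.card_image_of_injOn, Finset.card_range]
      · exact hdeg
      · intro i hi j hj hij
        exact hz.pow_inj (Finset.mem_range.mp hi) (Finset.mem_range.mp hj) hij
  have hc := congrArg (fun R : Polynomial E => R.coeff ((1 : (ZMod q)ˣ) : ZMod q).val) hW
  simp only [W, Polynomial.coeff_sub, Polynomial.finsetSum_coeff, Polynomial.coeff_X_pow,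
    Polynomial.coeff_zero] at hc
  rw [Finset.sum_eq_single 1, Finset.sum_eq_zero] at hc
  · simp at hc
  · intro x hx
    rw [if_neg]
    intro h0
    apply ha
    have h1 := val_units_inj q 1 (a * x) h0
    obtain ⟨c, hc⟩ := (mem_pw q n x).mp hx
    refine (mem_pw q n a).mpr ⟨c⁻¹, ?_⟩
    rw [inv_pow, hc]
    exact (eq_inv_of_mul_eq_one_left h1.symm).symm
  · intro x _ hx
    rw [if_neg]
    intro h0
    exact hx (val_units_inj q 1 x h0).symm
  · intro h0
    exact absurd ((mem_pw q n 1).mpr ⟨1, one_pow _⟩) h0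

lemma per_frob {E : Type*} [Field E] (p : ℕ) [Fact p.Prime] [CharP E p] (z : E)
    (hz : z ^ q = 1) (u : (ZMod q)ˣ) (hu : (u : ZMod q) = p) (b : (ZMod q)ˣ) (k : ℕ) :
    (per q n z b) ^ (p ^ k) = per q n z (u ^ k * b) := by
  induction k generalizing b with
  | zero => simp
  | succ k ih =>
    have h1 : (per q n z b) ^ p = per q n z (u * b) := by
      rw [← per_pow q n z hz u b]
      have e : z ^ (u : ZMod q).val = z ^ p := by
        rw [hu, ZMod.val_natCast, ← pow_eq_pow_mod _ hz]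
      rw [e]
      unfold per
      rw [sum_pow_char]
      refine sum_congr rfl fun x _ => ?_
      rw [← pow_mul, ← pow_mul, mul_comm]
    rw [pow_succ', pow_mul, h1, ih, pow_succ, mul_assoc]

/-- the Frobenius orbit of the Gaussian period is as long as possible -/
lemma per_distinct {E : Type*} [Field E] (p : ℕ) [Fact p.Prime] [CharP E p] (z : E)
    (hz : IsPrimitiveRoot z q) (hn : 2 ^ n ∣ q - 1) (u : (ZMod q)ˣ) (hu : (u : ZMod q) = p)
    (hns : ¬ IsSquare u) (k l : ℕ) (hkl : k < l) (hl : l < 2 ^ n) :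
    (per q n z 1) ^ (p ^ k) ≠ (per q n z 1) ^ (p ^ l) := by
  intro heq
  have hzq := hz.pow_eq_one
  refine not_pw q n u hns hn (l - k) (by omega) (by omega) ?_
  apply mem_of_relation q n z hz
  intro b
  obtain ⟨t, -, c, hb⟩ := exists_pow q n u b hns
  have h1 := congrArg (fun y => y ^ (p ^ (t + (2 ^ n - 1) * k))) heq
  simp only [← pow_mul, ← pow_add] at h1
  rw [per_frob q n p z hzq u hu, per_frob q n p z hzq u hu, mul_one, mul_one] at h1
  have h2n : 1 ≤ 2 ^ n := Nat.one_le_two_pow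
  have e1 : k + (t + (2 ^ n - 1) * k) = t + k * 2 ^ n := by
    have : (2 ^ n - 1) * k + k = k * 2 ^ n := by
      rw [← Nat.succ_mul, Nat.succ_eq_add_one, Nat.sub_add_cancel h2n, mul_comm]
    omega
  have e2 : l + (t + (2 ^ n - 1) * k) = (l - k) + (t + k * 2 ^ n) := by omega
  rw [e2, e1] at h1
  have e3 : per q n z (u ^ (t + k * 2 ^ n)) = per q n z b := by
    rw [hb, per_mul_pow, pow_add, pow_mul, per_mul_pow]
  have e4 : per q n z (u ^ (l - k + (t + k * 2 ^ n))) = per q n z (u ^ (l - k) * b) := by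
    rw [hb, ← mul_assoc, per_mul_pow, pow_add, pow_add, pow_mul, ← mul_assoc, per_mul_pow]
  rw [e3, e4] at h1
  exact h1

end

end Pool.Agent.H58W
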