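import Mathlib
import Pool.Agent.H58W.Per

set_option autoImplicit false
set_option linter.unusedSectionVars false

/-!
# Local degrees of the fields generated by the Gaussian periods
-/

namespace Pool.Agent.H58W

open NumberField IsDedekindDomain HeightOneSpectrum Polynomial

section

variable {K : Type} [Field K] [NumberField K] (v : HeightOneSpectrum (𝓞 K))
  (p : ℕ) [hpF : Fact p.Prime]

lemma one_notMem : (1 : 𝓞 K) ∉ v.asIdeal := fun h =>
  v.isPrime.ne_top ((Ideal.eq_top_iff_one _).mpr h)

lemma notMem_of_coprime (hp : (p : 𝓞 K) ∈ v.asIdeal) (m : ℤ) (hm : IsCoprime m (p : ℤ)) :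
    (m : 𝓞 K) ∉ v.asIdeal := by
  intro hmem
  obtain ⟨a, b, hab⟩ := hm
  apply one_notMem v
  have : (1 : 𝓞 K) = (a : 𝓞 K) * m + b * p := by
    have := congrArg (Int.cast : ℤ → 𝓞 K) hab
    push_cast at this
    exact this.symm
  rw [this]
  exact v.asIdeal.add_mem (v.asIdeal.mul_mem_left _ hmem) (v.asIdeal.mul_mem_left _ hp)

lemma val_int (m : ℤ) : v.valuation K (m : K) = v.valuation K (algebraMap (𝓞 K) K (m : 𝓞 K)) :=
  congrArg (v.valuation K) (map_intCast (algebraMap (𝓞 K) K) m).symm

lemma val_int_eq_one (hp : (p : 𝓞 K) ∈ v.asIdeal) (m : ℤ) (hm : IsCoprime m (p : ℤ)) :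
    v.valuation K (m : K) = 1 := by
  rw [val_int]
  exact v.valuation_eq_one_iff_notMem.mpr (notMem_of_coprime v p hp m hm)

lemma val_int_lt_one (hp : (p : 𝓞 K) ∈ v.asIdeal) (m : ℤ) (hm : (p : ℤ) ∣ m) :
    v.valuation K (m : K) < 1 := by
  rw [val_int]
  apply (valuation_lt_one_iff_mem v (m : 𝓞 K)).mpr
  obtain ⟨c, rfl⟩ := hm
  rw [Int.cast_mul, Int.cast_natCast]
  exact v.asIdeal.mul_mem_right _ hp

lemma coprime_or_dvd (m : ℤ) : IsCoprime m (p : ℤ) ∨ (p : ℤ) ∣ m := by
  rcases em ((p : ℤ) ∣ m) with h | h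
  · exact Or.inr h
  · left
    exact ((Nat.prime_iff_prime_int.mp hpF.out).coprime_iff_not_dvd.mpr h).symm

lemma rat_frob (hp : (p : 𝓞 K) ∈ v.asIdeal) (r : ℚ)
    (hr : v.valuation K (algebraMap ℚ K r) ≤ 1) :
    v.valuation K ((algebraMap ℚ K r) ^ p - algebraMap ℚ K r) < 1 := by
  have hden : (r.den : ℤ) ≠ 0 := by exact_mod_cast r.den_nz
  have hk : algebraMap ℚ K r * ((r.den : ℤ) : K) = (r.num : K) := by
    have h1 : r * ((r.den : ℤ) : ℚ) = (r.num : ℚ) := by
      rw [Int.cast_natCast]; exact Rat.mul_den_eq_num r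
    have := congrArg (algebraMap ℚ K) h1
    rwa [map_mul, map_intCast, map_intCast] at this
  have hb : IsCoprime (r.den : ℤ) (p : ℤ) := by
    rcases coprime_or_dvd p (r.den : ℤ) with h | h
    · exact h
    · exfalso
      have hnum : IsCoprime r.num (p : ℤ) := by
        have h1 : IsCoprime r.num (r.den : ℤ) := Rat.isCoprime_num_den r
        exact h1.of_isCoprime_of_dvd_right h
      have h1 := val_int_eq_one v p hp r.num hnum
      have h2 := val_int_lt_one v p hp (r.den : ℤ) h
      rw [← hk, map_mul] at h1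
      have h3 : v.valuation K (algebraMap ℚ K r) * v.valuation K ((r.den : ℤ) : K) < 1 :=
        mul_lt_one_of_nonneg_of_lt_one_right hr zero_le h2
      exact absurd h1 h3.ne
  have hbK := val_int_eq_one v p hp _ hb
  have hm : (p : ℤ) ∣ r.num ^ p - r.num * (r.den : ℤ) ^ (p - 1) := by
    rw [← ZMod.intCast_zmod_eq_zero_iff_dvd]
    push_cast
    have h1 : ((r.den : ℕ) : ZMod p) ≠ 0 := by
      intro h0
      have h2 : (p : ℤ) ∣ (r.den : ℤ) := by
        rw [← ZMod.intCast_zmod_eq_zero_iff_dvd]
        exact_mod_cast h0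
      have h3 := hb.isUnit_of_dvd' h2 dvd_rfl
      rw [Int.isUnit_iff] at h3
      have := hpF.out.two_le
      omega
    rw [ZMod.pow_card, ZMod.pow_card_sub_one_eq_one h1, mul_one, sub_self]
  have h1 := val_int_lt_one v p hp _ hm
  have e : ((algebraMap ℚ K r) ^ p - algebraMap ℚ K r) * (((r.den : ℤ) : K)) ^ p =
      ((r.num ^ p - r.num * (r.den : ℤ) ^ (p - 1) : ℤ) : K) := by
    rw [Int.cast_sub, Int.cast_pow, Int.cast_mul, Int.cast_pow, ← hk]
    have hp1 : (((r.den : ℤ) : K)) ^ p = ((r.den : ℤ) : K) * ((r.den : ℤ) : K) ^ (p - 1) := by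
      rw [← pow_succ']; congr 1; have := hpF.out.one_lt; omega
    rw [mul_pow, sub_mul]
    congr 1
    rw [hp1]
    ring
  rw [← e, map_mul, map_pow, hbK, one_pow, mul_one] at h1
  exact h1

lemma int_frob (hrat : ∀ k : K, ∃ r : ℚ, algebraMap ℚ K r = k) (hp : (p : 𝓞 K) ∈ v.asIdeal)
    (x : v.adicCompletion K) (hx : Valued.v x ≤ 1) :
    Valued.v (x ^ p - x) < 1 := by
  -- approximate by an element of `K`
  obtain ⟨k, hk⟩ : ∃ k : K, Valued.v (algebraMap K (v.adicCompletion K) k - x) < 1 := by
    have hd := denseRange_algebraMap (R := 𝓞 K) (K := K) (v := v)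
    have hnhds : {y : v.adicCompletion K | Valued.v (y - x) < 1} ∈ nhds x := by
      rw [Valued.mem_nhds]
      refine ⟨1, fun y hy => ?_⟩
      simp only [Set.mem_ofPred_eq, Units.val_one] at hy ⊢
      exact (Valuation.restrict_lt_one_iff _).mp hy
    obtain ⟨s, hs, hso, hxs⟩ := mem_nhds_iff.mp hnhds
    obtain ⟨k, hk⟩ := hd.exists_mem_open hso ⟨x, hxs⟩
    exact ⟨k, hs hk⟩
  have hk1 : Valued.v (algebraMap K (v.adicCompletion K) k) ≤ 1 := by
    have : algebraMap K (v.adicCompletion K) k = (algebraMap K (v.adicCompletion K) k - x) + x := by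
      ring
    rw [this]
    exact (Valuation.map_add _ _ _).trans (max_le hk.le hx)
  have hval : ∀ y : K, Valued.v (algebraMap K (v.adicCompletion K) y) = v.valuation K y := by
    intro y
    exact valuedAdicCompletion_eq_valuation' v y
  obtain ⟨r, rfl⟩ := hrat k
  rw [hval] at hk1
  have h1 := rat_frob v p hp r hk1
  rw [← hval, map_sub, map_pow] at h1
  set k' := algebraMap K (v.adicCompletion K) (algebraMap ℚ K r) with hk'
  rw [← hval] at hk1
  have h2 : Valued.v (k' ^ p - x ^ p) < 1 := by
    rw [← Commute.mul_geom_sum₂ (Commute.all k' x) p, map_mul]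
    apply mul_lt_one_of_nonneg_of_lt_one_left zero_le hk
    apply Valuation.map_sum_le
    intro i _
    rw [map_mul, map_pow, map_pow]
    exact mul_le_one' (pow_le_one' hk1 _) (pow_le_one' hx _)
  have e : x ^ p - x = (k' ^ p - k') + -(k' ^ p - x ^ p) + (k' - x) := by ring
  rw [e]
  apply Valuation.map_add_lt _ _ hk
  apply Valuation.map_add_lt _ h1
  rwa [Valuation.map_neg]

/-- the local degree of the field generated by the Gaussian period is at least `2 ^ n` -/
theorem local_degree (hrat : ∀ k : K, ∃ r : ℚ, algebraMap ℚ K r = k)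
    (hp : (p : 𝓞 K) ∈ v.asIdeal) (q n : ℕ) [hqF : Fact q.Prime] (hpq : p ≠ q)
    (hn : 2 ^ n ∣ q - 1) (hns : ¬ IsSquare ((p : ℕ) : ZMod q))
    (ζ : AlgebraicClosure (v.adicCompletion K)) (hζ : IsPrimitiveRoot ζ q) :
    2 ^ n ≤ (minpoly (v.adicCompletion K) (per q n ζ 1)).natDegree := by
  classical
  let O := v.adicCompletionIntegers K
  let C := AlgebraicClosure (v.adicCompletion K)
  let R := integralClosure O C
  -- the integral elements
  have hζint : IsIntegral O ζ := by
    refine ⟨X ^ q - 1, ?_, ?_⟩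
    · exact monic_X_pow_sub_C (1 : O) (hqF.out.ne_zero)
    · simp [hζ.pow_eq_one]
  let z : R := ⟨ζ, hζint⟩
  have hηR : ((per q n z 1 : R) : C) = per q n ζ 1 :=
    map_per q n (algebraMap R C) z 1
  have hηint : IsIntegral O (per q n ζ 1) := by
    rw [← hηR]; exact (per q n z 1).2
  have hmp : minpoly (v.adicCompletion K) (per q n ζ 1) =
      (minpoly O (per q n ζ 1)).map (algebraMap O (v.adicCompletion K)) :=
    minpoly.isIntegrallyClosed_eq_field_fractions' (v.adicCompletion K) hηint
  rw [hmp, (minpoly.monic hηint).natDegree_map]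
  -- a maximal ideal
  have hRint : Algebra.IsIntegral O R := integralClosure.AlgebraIsIntegral
  have hfaith : FaithfulSMul O R := by
    rw [faithfulSMul_iff_algebraMap_injective]
    intro a b hab
    have h1 := congrArg (fun y : R => (y : C)) hab
    have h2 : algebraMap (v.adicCompletion K) C (a : v.adicCompletion K) =
      algebraMap (v.adicCompletion K) C (b : v.adicCompletion K) := h1
    exact Subtype.ext ((algebraMap (v.adicCompletion K) C).injective h2)
  obtain ⟨P, hP1, hP2⟩ := Ideal.exists_maximal_ideal_liesOver_of_isIntegral (S := R)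
    (IsLocalRing.maximalIdeal O)
  let E := R ⧸ P
  let _ : Field E := Ideal.Quotient.field P
  let φ : O →+* E := (Ideal.Quotient.mk P).comp (algebraMap O R)
  have hφ : ∀ a : O, Valued.v (a : v.adicCompletion K) < 1 → φ a = 0 := by
    intro a ha
    show Ideal.Quotient.mk P (algebraMap O R a) = 0
    rw [Ideal.Quotient.eq_zero_iff_mem]
    have h1 : a ∈ IsLocalRing.maximalIdeal O := by
      rw [IsLocalRing.mem_maximalIdeal, mem_nonunits_iff,
        adicCompletionIntegers.isUnit_iff_valued_eq_one]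
      exact ha.ne
    rw [hP2.over] at h1
    exact h1
  have hpE : ((p : ℕ) : E) = 0 := by
    have h1 : φ ((p : ℕ) : O) = 0 := by
      apply hφ
      have h2 : (((p : ℕ) : O) : v.adicCompletion K) =
          algebraMap K (v.adicCompletion K) (((p : ℕ) : ℤ) : K) := by
        simp
      rw [h2]
      have h3 : Valued.v (algebraMap K (v.adicCompletion K) (((p : ℕ) : ℤ) : K)) =
        v.valuation K (((p : ℕ) : ℤ) : K) := valuedAdicCompletion_eq_valuation' v _
      rw [h3]
      exact val_int_lt_one v p hp _ dvd_rfl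
    rwa [map_natCast] at h1
  have hchar : CharP E p := by
    obtain ⟨c, hc⟩ := CharP.exists E
    have h1 : c ∣ p := (CharP.cast_eq_zero_iff E c p).mp hpE
    rcases (Nat.dvd_prime hpF.out).mp h1 with h | h
    · exfalso
      rw [h] at hc
      have : ((1 : ℕ) : E) = 0 := (CharP.cast_eq_zero_iff E 1 1).mpr dvd_rfl
      rw [Nat.cast_one] at this
      exact one_ne_zero this
    · rwa [h] at hc
  -- the root of unity
  set zE : E := Ideal.Quotient.mk P z with hzE
  have hqE : ((q : ℕ) : E) ≠ 0 := by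
    intro h0
    have h1 := (CharP.cast_eq_zero_iff E p q).mp h0
    exact hpq ((Nat.prime_dvd_prime_iff_eq hpF.out hqF.out).mp h1)
  have hzprim : IsPrimitiveRoot zE q := by
    have hne : NeZero ((q : ℕ) : E) := ⟨hqE⟩
    rw [← isRoot_cyclotomic_iff]
    have h1 : (cyclotomic q C).IsRoot ζ := by
      have : NeZero ((q : ℕ) : C) := by
        refine ⟨fun h0 => ?_⟩
        have h1 : algebraMap (v.adicCompletion K) C
            (algebraMap K (v.adicCompletion K) ((q : ℕ) : K)) = 0 := by
          rw [map_natCast, map_natCast]; exact h0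
        rw [map_eq_zero, map_eq_zero] at h1
        exact hqF.out.ne_zero (by exact_mod_cast h1)
      rw [isRoot_cyclotomic_iff]
      exact hζ
    have h2 : (cyclotomic q R).IsRoot z := by
      rw [IsRoot.def]
      apply Subtype.ext
      have h3 := h1
      rw [IsRoot.def, ← map_cyclotomic q (algebraMap R C), eval_map_algebraMap,
        show ζ = algebraMap R C z from rfl, aeval_algebraMap_apply] at h3
      rw [coe_aeval_eq_eval] at h3
      exact h3
    rw [IsRoot.def, ← map_cyclotomic q (Ideal.Quotient.mk P), hzE, eval_map, eval₂_at_apply]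
    rw [IsRoot.def] at h2
    rw [h2, map_zero]
  have hηE : Ideal.Quotient.mk P (per q n z 1) = per q n zE 1 := map_per q n _ z 1
  -- the polynomial over `E`
  set f : E[X] := (minpoly O (per q n ζ 1)).map φ with hf
  have hf0 : f ≠ 0 := ((minpoly.monic hηint).map _).ne_zero
  have hroot : f.eval (per q n zE 1) = 0 := by
    rw [hf, eval_map, ← hηE]
    show eval₂ ((Ideal.Quotient.mk P).comp (algebraMap O R)) _ _ = 0
    rw [← hom_eval₂]
    have h1 : eval₂ (algebraMap O R) (per q n z 1) (minpoly O (per q n ζ 1)) = 0 := by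
      apply Subtype.ext
      have h2 : eval₂ (algebraMap O C) ((per q n z 1 : R) : C) (minpoly O (per q n ζ 1)) = 0 := by
        rw [hηR]
        exact minpoly.aeval O (per q n ζ 1)
      have h3 := hom_eval₂ (minpoly O (per q n ζ 1)) (algebraMap O R) (algebraMap R C)
        (per q n z 1)
      have h4 : (algebraMap R C).comp (algebraMap O R) = algebraMap O C := rfl
      rw [h4] at h3
      exact h3.trans h2
    rw [h1, map_zero]
  have hcoef : ∀ c : O, (φ c) ^ p = φ c := by
    intro c
    rw [← sub_eq_zero, ← map_pow, ← map_sub]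
    apply hφ
    exact int_frob v p hrat hp (c : v.adicCompletion K) c.2
  have hfrob : ∀ y : E, f.eval y = 0 → f.eval (y ^ p) = 0 := by
    intro y hy
    have h1 : (f.eval y) ^ p = f.eval (y ^ p) := by
      rw [eval_eq_sum, eval_eq_sum, Polynomial.sum, Polynomial.sum, sum_pow_char]
      refine Finset.sum_congr rfl fun i _ => ?_
      rw [mul_pow, ← pow_mul, ← pow_mul, mul_comm i p, hf, coeff_map, hcoef]
    rw [← h1, hy, zero_pow hpF.out.ne_zero]
  have hfrobk : ∀ k : ℕ, f.eval ((per q n zE 1) ^ (p ^ k)) = 0 := by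
    intro k
    induction k with
    | zero => simpa using hroot
    | succ k ih =>
      rw [pow_succ, pow_mul]
      exact hfrob _ ih
  -- the unit
  have hpq0 : ((p : ℕ) : ZMod q) ≠ 0 := by
    intro h0
    rw [ZMod.natCast_eq_zero_iff] at h0
    exact hpq ((Nat.prime_dvd_prime_iff_eq hqF.out hpF.out).mp h0).symm
  have hu : ¬ IsSquare (Units.mk0 ((p : ℕ) : ZMod q) hpq0) := by
    rintro ⟨c, hc⟩
    apply hns
    refine ⟨(c : ZMod q), ?_⟩
    have := congrArg (fun w : (ZMod q)ˣ => (w : ZMod q)) hc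
    simpa using this
  have hcard : ((Finset.range (2 ^ n)).image (fun k => (per q n zE 1) ^ (p ^ k))).card = 2 ^ n := by
    rw [Finset.card_image_of_injOn, Finset.card_range]
    intro k hk l hl hkl
    rw [Finset.coe_range, Set.mem_Iio] at hk hl
    by_contra hne
    rcases Nat.lt_or_gt_of_ne hne with h | h
    · exact per_distinct q n p zE hzprim hn _ (Units.val_mk0 hpq0) hu k l h hl hkl
    · exact per_distinct q n p zE hzprim hn _ (Units.val_mk0 hpq0) hu l k h hk hkl.symm
  have hsub : ((Finset.range (2 ^ n)).image (fun k => (per q n zE 1) ^ (p ^ k))) ⊆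
      f.roots.toFinset := by
    intro y hy
    obtain ⟨k, -, rfl⟩ := Finset.mem_image.mp hy
    rw [Multiset.mem_toFinset, mem_roots hf0]
    exact hfrobk k
  calc 2 ^ n = _ := hcard.symm
    _ ≤ f.roots.toFinset.card := Finset.card_le_card hsub
    _ ≤ f.natDegree := (Multiset.toFinset_card_le _).trans (card_roots' f)
    _ ≤ _ := natDegree_map_le

end

end Pool.Agent.H58W
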