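import Mathlib
import Pool.Agent.H58W.Per

set_option autoImplicit false

/-!
# Selection of the conductors
-/

namespace Pool.Agent.H58W

open IntermediateField Polynomial

abbrev Qb : Type := AlgebraicClosure ℚ

instance instAlgQb : Algebra.IsAlgebraic ℚ (AlgebraicClosure ℚ) := AlgebraicClosure.isAlgebraic ℚ
instance instClQb : IsAlgClosure ℚ (AlgebraicClosure ℚ) := ⟨inferInstance, inferInstance⟩
instance instGalQb : IsGalois ℚ (AlgebraicClosure ℚ) := IsAlgClosure.isGalois ℚ _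

lemma mem_of_fixed (M : IntermediateField ℚ Qb) (x : Qb)
    (h : ∀ τ ∈ M.fixingSubgroup, τ x = x) : x ∈ M := by
  rw [← InfiniteGalois.fixedField_fixingSubgroup M]
  intro τ
  exact h τ.1 τ.2

lemma rat_of_fixed (x : Qb) (h : ∀ τ : Qb ≃ₐ[ℚ] Qb, τ x = x) : ∃ r : ℚ, algebraMap ℚ Qb r = x := by
  have := mem_of_fixed ⊥ x (fun τ _ => h τ)
  exact IntermediateField.mem_bot.mp this

/-- only finitely many primes have a square root in a number field -/
lemma finite_sqrt (M : IntermediateField ℚ Qb) [FiniteDimensional ℚ M] :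
    {q : ℕ | q.Prime ∧ ∃ g ∈ M, g ^ 2 = (q : Qb)}.Finite := by
  classical
  set S := {q : ℕ | q.Prime ∧ ∃ g ∈ M, g ^ 2 = (q : Qb)} with hS
  have hch : ∀ q : S, ∃ g : M, (g : Qb) ^ 2 = ((q : ℕ) : Qb) := by
    rintro ⟨q, hq1, g, hg, hq2⟩
    exact ⟨⟨g, hg⟩, hq2⟩
  choose g hg using hch
  have hfin : Finite (M →ₐ[ℚ] Qb) := inferInstance
  let Φ : S → Set (M →ₐ[ℚ] Qb) := fun q => {φ | φ (g q) = (g q : Qb)}
  have hinj : Function.Injective Φ := by
    intro a b hab
    by_contra hne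
    -- the product of the square roots is rational
    have hfix : ∀ τ : Qb ≃ₐ[ℚ] Qb, τ ((g a : Qb) * (g b : Qb)) = (g a : Qb) * (g b : Qb) := by
      intro τ
      have hsq : ∀ c : S, τ (g c : Qb) = (g c : Qb) ∨ τ (g c : Qb) = -(g c : Qb) := by
        intro c
        have h1 : (τ (g c : Qb)) ^ 2 = (g c : Qb) ^ 2 := by
          rw [← map_pow, hg c, map_natCast]
        exact sq_eq_sq_iff_eq_or_eq_neg.mp h1
      have hiff : τ (g a : Qb) = (g a : Qb) ↔ τ (g b : Qb) = (g b : Qb) := by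
        have h1 := congrArg (fun T : Set (M →ₐ[ℚ] Qb) => (τ : Qb →ₐ[ℚ] Qb).comp M.val ∈ T) hab
        simp only [Φ, eq_iff_iff] at h1
        exact h1
      rw [map_mul]
      rcases hsq a with h1 | h1 <;> rcases hsq b with h2 | h2
      · rw [h1, h2]
      · rw [hiff.mp h1, h1]
      · rw [hiff.mpr h2, h2]
      · rw [h1, h2]; ring
    obtain ⟨r, hr⟩ := rat_of_fixed _ hfix
    have h2 : r ^ 2 = ((a : ℕ) : ℚ) * ((b : ℕ) : ℚ) := by
      apply (algebraMap ℚ Qb).injective
      rw [map_pow, hr, mul_pow, hg a, hg b, map_mul, map_natCast, map_natCast]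
    have h3 : IsSquare (((a : ℕ) * (b : ℕ) : ℕ) : ℚ) := ⟨r, by push_cast; rw [← h2]; ring⟩
    rw [Rat.isSquare_natCast_iff] at h3
    obtain ⟨m, hm⟩ := h3
    have ha : (a : ℕ).Prime := a.2.1
    have hb : (b : ℕ).Prime := b.2.1
    have h4 : (a : ℕ) ∣ m := by
      have : (a : ℕ) ∣ m * m := ⟨b, hm.symm⟩
      exact (Nat.Prime.dvd_mul ha).mp this |>.elim id id
    obtain ⟨c, rfl⟩ := h4
    have h5 : (b : ℕ) = (a : ℕ) * (c * c) := by
      apply Nat.eq_of_mul_eq_mul_left ha.pos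
      rw [hm]; ring
    have h6 : (a : ℕ) ∣ (b : ℕ) := ⟨_, h5⟩
    have h7 := (Nat.prime_dvd_prime_iff_eq ha hb).mp h6
    exact hne (Subtype.ext h7)
  have : Finite S := Finite.of_injective Φ hinj
  exact Set.toFinite S

/-- the Gauss sum gives a square root of `q` -/
lemma sqrt_of_squares (M : IntermediateField ℚ Qb) (q : ℕ) [hq : Fact q.Prime] (hq4 : q % 4 = 1)
    (ζ : Qb) (hζ : IsPrimitiveRoot ζ q)
    (h : ∀ τ ∈ M.fixingSubgroup, IsSquare (hζ.autToPow ℚ τ)) : ∃ g ∈ M, g ^ 2 = (q : Qb) := by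
  have hq2 : ringChar (ZMod q) ≠ 2 := by
    rw [ZMod.ringChar_zmod_n]; rintro rfl; norm_num at hq4
  let χ : MulChar (ZMod q) Qb := (quadraticChar (ZMod q)).ringHomComp (Int.castRingHom Qb)
  let ψ : AddChar (ZMod q) Qb := AddChar.zmodChar q hζ.pow_eq_one
  have hψ : ψ.IsPrimitive := AddChar.zmodChar_primitive_of_primitive_root q hζ
  have hχ2 : χ.IsQuadratic := (quadraticChar_isQuadratic (ZMod q)).comp _
  have hχ1 : χ ≠ 1 := by
    have := quadraticChar_ne_one hq2
    rw [Ne, MulChar.ringHomComp_eq_one_iff (RingHom.injective_int _)]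
    exact this
  refine ⟨gaussSum χ ψ, ?_, ?_⟩
  · apply mem_of_fixed
    intro τ hτ
    obtain ⟨c, hc⟩ := h τ hτ
    set u := hζ.autToPow ℚ τ with hu
    have h1 : ∀ a : ZMod q, τ (ψ a) = ψ (u * a) := by
      intro a
      rw [AddChar.zmodChar_apply, AddChar.zmodChar_apply, map_pow, ← hζ.autToPow_spec ℚ τ]
      exact pow_val_mul q ζ hζ.pow_eq_one _ _
    have h2 : ∀ a : ZMod q, τ (χ a) = χ a := by
      intro a
      simp only [χ, MulChar.ringHomComp_apply, eq_intCast, map_intCast]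
    have h3 : τ (gaussSum χ ψ) = gaussSum χ (ψ.mulShift u) := by
      simp only [gaussSum, map_sum, map_mul, h1, h2, AddChar.mulShift_apply]
    have h4 := gaussSum_mulShift χ ψ u
    have h5 : χ u = 1 := by
      rw [hc, Units.val_mul, map_mul]
      have := hχ2 (c : ZMod q)
      rcases this with h | h | h
      · exfalso
        have h7 : IsUnit (χ (c : ZMod q)) := c.isUnit.map χ
        rw [h] at h7
        exact not_isUnit_zero h7
      · rw [h, one_mul]
      · rw [h]; norm_num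
    rw [h5, one_mul] at h4
    rw [h3, h4]
  · rw [gaussSum_sq hχ1 hχ2 hψ, ZMod.card]
    have : χ (-1) = 1 := by
      simp only [χ, MulChar.ringHomComp_apply]
      rw [quadraticChar_neg_one hq2, ZMod.card, ZMod.χ₄_nat_one_mod_four hq4]
      simp
    rw [this, one_mul]

/-- selection of the prime -/
lemma exists_conductor (M : IntermediateField ℚ Qb) [FiniteDimensional ℚ M] (p n : ℕ)
    [hp : Fact p.Prime] (hp2 : p ≠ 2) :
    ∃ (q : ℕ) (_ : Fact q.Prime) (ζ : Qb) (hζ : IsPrimitiveRoot ζ q), p ≠ q ∧ 2 ^ n ∣ q - 1 ∧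
      ¬ IsSquare ((p : ℕ) : ZMod q) ∧ ∃ τ ∈ M.fixingSubgroup, ¬ IsSquare (hζ.autToPow ℚ τ) := by
  classical
  -- a non-residue modulo `p`
  obtain ⟨r, hr⟩ : ∃ r : ZMod p, quadraticChar (ZMod p) r = -1 :=
    quadraticChar_exists_neg_one (by rw [ZMod.ringChar_zmod_n]; exact hp2)
  -- the residue class
  have hcop : Nat.Coprime (2 ^ (n + 2)) p := by
    apply Nat.Coprime.pow_left
    exact (Nat.coprime_primes Nat.prime_two hp.out).mpr hp2.symm
  obtain ⟨c, hc1, hc2⟩ := Nat.chineseRemainder hcop 1 r.val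
  set N := 2 ^ (n + 2) * p with hN
  have hN0 : NeZero N := ⟨by have := hp.out.pos; positivity⟩
  have hr0 : r ≠ 0 := by
    rintro rfl
    rw [quadraticChar_zero] at hr
    norm_num at hr
  have hcN : IsUnit ((c : ℕ) : ZMod N) := by
    rw [ZMod.isUnit_iff_coprime]
    apply Nat.Coprime.mul_right
    · have := hc1.gcd_eq
      rw [Nat.gcd_one_left] at this
      exact this
    · have := hc2.gcd_eq
      rw [Nat.coprime_iff_gcd_eq_one, this]
      have h1 : ¬ p ∣ r.val := by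
        intro h
        have h2 := Nat.eq_zero_of_dvd_of_lt h (ZMod.val_lt r)
        exact hr0 ((ZMod.val_eq_zero r).mp h2)
      exact ((Nat.Prime.coprime_iff_not_dvd hp.out).mpr h1).symm
  have hfin := finite_sqrt M
  obtain ⟨B, hB⟩ := hfin.bddAbove
  obtain ⟨q, hqB, hqp, hqc⟩ := Nat.forall_exists_prime_gt_and_eq_mod hcN (max B p)
  have hqF : Fact q.Prime := ⟨hqp⟩
  have hmod : q ≡ c [MOD N] := (ZMod.natCast_eq_natCast_iff _ _ _).mp hqc
  have hmod1 : q ≡ 1 [MOD 2 ^ (n + 2)] := (hmod.of_dvd (Dvd.intro _ rfl)).trans hc1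
  have hmod2 : q ≡ r.val [MOD p] := (hmod.of_dvd (Dvd.intro_left _ rfl)).trans hc2
  have hpq : p ≠ q := by
    have := (le_max_right B p).trans_lt hqB
    omega
  have hdvd : 2 ^ (n + 2) ∣ q - 1 := (Nat.modEq_iff_dvd' hqp.one_lt.le).mp hmod1.symm
  have hq4 : q % 4 = 1 := by
    have h4 : 4 ∣ q - 1 := dvd_trans ⟨2 ^ n, by ring⟩ hdvd
    have := hqp.one_lt
    omega
  have hns : ¬ IsSquare ((p : ℕ) : ZMod q) := by
    have h1 : legendreSym p q = legendreSym q p :=
      legendreSym.quadratic_reciprocity_one_mod_four hq4 hp2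
    have h2 : legendreSym p q = -1 := by
      unfold legendreSym
      have : ((q : ℤ) : ZMod p) = r := by
        have h3 := (ZMod.natCast_eq_natCast_iff q r.val p).mpr hmod2
        rw [ZMod.natCast_zmod_val] at h3
        rw [Int.cast_natCast]
        exact h3
      rw [this]
      exact hr
    rw [h2] at h1
    have h3 := (legendreSym.eq_neg_one_iff q).mp h1.symm
    rwa [Int.cast_natCast] at h3
  obtain ⟨ζ, hζ⟩ := HasEnoughRootsOfUnity.exists_primitiveRoot Qb q
  refine ⟨q, hqF, ζ, hζ, hpq, dvd_trans ⟨2 ^ 2, by ring⟩ hdvd, hns, ?_⟩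
  by_contra hcon
  push Not at hcon
  have h5 := sqrt_of_squares M q hq4 ζ hζ hcon
  have h6 : q ≤ B := hB ⟨hqp, h5⟩
  have := (le_max_left B p).trans_lt hqB
  omega

end Pool.Agent.H58W
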