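import Mathlib
import Pool.Agent.H58W.Sel

set_option autoImplicit false

/-!
# The tower of abelian fields
-/

namespace Pool.Agent.H58W

open IntermediateField Polynomial Module

section

variable (q n : ℕ) [hqF : Fact q.Prime] (ζ : Qb) (hζ : IsPrimitiveRoot ζ q)

include hζ in
lemma act_per (σ : Qb ≃ₐ[ℚ] Qb) (b : (ZMod q)ˣ) :
    σ (per q n ζ b) = per q n ζ (hζ.autToPow ℚ σ * b) := by
  rw [← per_pow q n ζ hζ.pow_eq_one, hζ.autToPow_spec ℚ σ]
  exact map_per q n (σ : Qb →+* Qb) ζ b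

lemma mem_iff_fixed (x : Qb) (M : IntermediateField ℚ Qb) (ρ : Qb ≃ₐ[ℚ] Qb)
    (hM : ∀ y ∈ M, ρ y = y) (hx : ρ x = x) (α : Qb)
    (hα : α ∈ M ⊔ IntermediateField.adjoin ℚ {x}) : ρ α = α := by
  have h1 : M ⊔ IntermediateField.adjoin ℚ {x} ≤ fixedField (Subgroup.zpowers ρ) := by
    have hgen : ∀ y : Qb, ρ y = y → y ∈ fixedField (Subgroup.zpowers ρ) := by
      intro y hy
      rintro ⟨τ, k, rfl⟩
      show (ρ ^ k) y = y
      have : ρ ∈ MulAction.stabilizer (Qb ≃ₐ[ℚ] Qb) y := hy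
      exact Subgroup.zpow_mem _ this k
    apply sup_le
    · intro y hy
      exact hgen y (hM y hy)
    · rw [IntermediateField.adjoin_le_iff]
      rintro y hy
      rw [Set.mem_singleton_iff] at hy
      subst hy
      exact hgen _ hx
  exact h1 hα ⟨ρ, Subgroup.mem_zpowers ρ⟩

include hζ in
lemma normal_per (σ : Qb ≃ₐ[ℚ] Qb) (x : Qb)
    (hx : x ∈ IntermediateField.adjoin ℚ {per q n ζ 1}) :
    σ x ∈ IntermediateField.adjoin ℚ {per q n ζ 1} := by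
  have key : (IntermediateField.adjoin ℚ {per q n ζ 1}).map (σ : Qb →ₐ[ℚ] Qb) ≤
      IntermediateField.adjoin ℚ {per q n ζ 1} := by
    rw [IntermediateField.adjoin_map, IntermediateField.adjoin_le_iff]
    rintro _ ⟨y, hy, rfl⟩
    rw [Set.mem_singleton_iff] at hy
    subst hy
    show σ (per q n ζ 1) ∈ IntermediateField.adjoin ℚ {per q n ζ 1}
    apply mem_of_fixed
    intro τ hτ
    have h1 : τ (per q n ζ 1) = per q n ζ 1 :=
      hτ ⟨per q n ζ 1, IntermediateField.mem_adjoin_simple_self ℚ _⟩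
    rw [act_per q n ζ hζ τ, mul_one] at h1
    rw [act_per q n ζ hζ σ, mul_one, act_per q n ζ hζ τ, mul_comm, ← act_per q n ζ hζ σ, h1,
      act_per q n ζ hζ σ, mul_one]
  exact key ⟨x, hx, rfl⟩

include hζ in
lemma finrank_per (u : (ZMod q)ˣ) (hu : ¬ IsSquare u) :
    finrank ℚ (IntermediateField.adjoin ℚ {per q n ζ 1}) ≤ 2 ^ n := by
  classical
  have hint : IsIntegral ℚ (per q n ζ 1) :=
    ((AlgebraicClosure.isAlgebraic ℚ).isAlgebraic _).isIntegral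
  rw [IntermediateField.adjoin.finrank hint]
  have hsep : (minpoly ℚ (per q n ζ 1)).Separable := (minpoly.irreducible hint).separable
  rw [← card_rootSet_eq_natDegree (K := Qb) hsep (IsAlgClosed.splits _)]
  have hsub : (minpoly ℚ (per q n ζ 1)).rootSet Qb ⊆
      ((Finset.range (2 ^ n)).image (fun k => per q n ζ (u ^ k)) : Finset Qb) := by
    intro y hy
    have hy1 : minpoly ℚ y = minpoly ℚ (per q n ζ 1) := by
      have h2 := (mem_rootSet.mp hy).2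
      exact (minpoly.eq_of_irreducible_of_monic (minpoly.irreducible hint) h2
        (minpoly.monic hint)).symm
    obtain ⟨σ, hσ⟩ := (Normal.minpoly_eq_iff_mem_orbit Qb).mp hy1
    have hσ' : σ (per q n ζ 1) = y := hσ
    rw [act_per q n ζ hζ σ, mul_one] at hσ'
    obtain ⟨k, hk, c, hc⟩ := exists_pow q n u (hζ.autToPow ℚ σ) hu
    rw [hc, per_mul_pow] at hσ'
    rw [← hσ']
    exact Finset.mem_coe.mpr (Finset.mem_image.mpr ⟨k, Finset.mem_range.mpr hk, rfl⟩)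
  calc Fintype.card ((minpoly ℚ (per q n ζ 1)).rootSet Qb)
      = ((minpoly ℚ (per q n ζ 1)).rootSet Qb).toFinset.card := (Set.toFinset_card _).symm
    _ ≤ ((Finset.range (2 ^ n)).image (fun k => per q n ζ (u ^ k))).card := by
        apply Finset.card_le_card
        intro y hy
        exact Finset.mem_coe.mp (hsub (Set.mem_toFinset.mp hy))
    _ ≤ 2 ^ n := Finset.card_image_le.trans (by simp)

include hζ in
lemma inter_per (K M : IntermediateField ℚ Qb) (hKM : K ≤ M) (τ₀ : Qb ≃ₐ[ℚ] Qb)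
    (hτ₀ : τ₀ ∈ M.fixingSubgroup) (hns : ¬ IsSquare (hζ.autToPow ℚ τ₀)) (α : Qb)
    (hα : α ∈ K ⊔ IntermediateField.adjoin ℚ {per q n ζ 1}) (hαM : α ∈ M) : α ∈ K := by
  apply mem_of_fixed
  intro σ hσ
  obtain ⟨k, -, c, hc⟩ := exists_pow q n (hζ.autToPow ℚ τ₀) (hζ.autToPow ℚ σ) hns
  set τ := τ₀ ^ k with hτ
  have hτM : τ ∈ M.fixingSubgroup := Subgroup.pow_mem _ hτ₀ k
  have h1 : τ (per q n ζ 1) = σ (per q n ζ 1) := by
    rw [act_per q n ζ hζ, act_per q n ζ hζ, hc, mul_one, mul_one, per_mul_pow, hτ, map_pow]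
  have h2 : ∀ y ∈ K, (τ⁻¹ * σ) y = y := by
    intro y hy
    have e1 : σ y = y := hσ ⟨y, hy⟩
    have e2 : τ y = y := hτM ⟨y, hKM hy⟩
    show τ⁻¹ (σ y) = y
    rw [e1]
    exact (AlgEquiv.symm_apply_eq τ).mpr e2.symm
  have h3 : (τ⁻¹ * σ) (per q n ζ 1) = per q n ζ 1 := by
    show τ⁻¹ (σ (per q n ζ 1)) = _
    rw [← h1]
    exact τ.symm_apply_apply _
  have h4 := mem_iff_fixed (per q n ζ 1) K (τ⁻¹ * σ) h2 h3 α hα
  have h5 : τ α = α := hτM ⟨α, hαM⟩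
  have h6 : σ α = τ ((τ⁻¹ * σ) α) := by
    show σ α = τ (τ.symm (σ α))
    rw [τ.apply_symm_apply]
  rw [h6, h4, h5]

end

/-- the local property of the layers of the tower -/
def LocProp (p n : ℕ) (L : IntermediateField ℚ Qb) : Prop :=
  ∃ (q : ℕ) (_ : Fact q.Prime) (ζ : Qb), IsPrimitiveRoot ζ q ∧ p ≠ q ∧ 2 ^ n ∣ q - 1 ∧
    ¬ IsSquare ((p : ℕ) : ZMod q) ∧ per q n ζ 1 ∈ L

/-- stability under all automorphisms -/
def Stable (K : IntermediateField ℚ Qb) : Prop := ∀ (σ : Qb ≃ₐ[ℚ] Qb), ∀ x ∈ K, σ x ∈ K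

lemma stable_sup (K L : IntermediateField ℚ Qb) (hK : Stable K) (hL : Stable L) :
    Stable (K ⊔ L) := by
  intro σ x hx
  have key : (K ⊔ L).map (σ : Qb →ₐ[ℚ] Qb) ≤ K ⊔ L := by
    rw [IntermediateField.map_sup]
    apply sup_le
    · rintro _ ⟨y, hy, rfl⟩
      exact (le_sup_left : K ≤ K ⊔ L) (hK σ y hy)
    · rintro _ ⟨y, hy, rfl⟩
      exact (le_sup_right : L ≤ K ⊔ L) (hL σ y hy)
  exact key ⟨x, hx, rfl⟩

lemma step (K : IntermediateField ℚ Qb) [FiniteDimensional ℚ K] (S : Set Qb) (hS : S.Finite)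
    (p n : ℕ) (hp : p.Prime) (hp2 : p ≠ 2) :
    ∃ L : IntermediateField ℚ Qb, FiniteDimensional ℚ L ∧ finrank ℚ L ≤ 2 ^ n ∧ Stable L ∧
      (∀ α ∈ K ⊔ L, α ∈ S → α ∈ K) ∧ LocProp p n L := by
  have hpF : Fact p.Prime := ⟨hp⟩
  have hSf : Finite S := hS
  have hfd : FiniteDimensional ℚ (IntermediateField.adjoin ℚ S) :=
    IntermediateField.finiteDimensional_adjoin fun y _ =>
      ((AlgebraicClosure.isAlgebraic ℚ).isAlgebraic y).isIntegral
  obtain ⟨q, hqF, ζ, hζ, hpq, hn, hns, τ, hτ, hτs⟩ :=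
    exists_conductor (K ⊔ IntermediateField.adjoin ℚ S) p n hp2
  have hint : IsIntegral ℚ (per q n ζ 1) :=
    ((AlgebraicClosure.isAlgebraic ℚ).isAlgebraic _).isIntegral
  refine ⟨IntermediateField.adjoin ℚ {per q n ζ 1}, adjoin.finiteDimensional hint,
    finrank_per q n ζ hζ _ hτs, normal_per q n ζ hζ, ?_,
    ⟨q, hqF, ζ, hζ, hpq, hn, hns, IntermediateField.mem_adjoin_simple_self ℚ _⟩⟩
  intro α hα hαS
  refine inter_per q n ζ hζ K _ le_sup_left τ hτ hτs α hα ?_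
  exact (le_sup_right : IntermediateField.adjoin ℚ S ≤ _) (IntermediateField.subset_adjoin ℚ S hαS)

/-- the tower -/
theorem exists_tower (bad : ℕ → Set Qb) (hbad : ∀ j, (bad j).Finite) (pr : ℕ → ℕ)
    (hpr : ∀ j, (pr j).Prime) (hpr2 : ∀ j, pr j ≠ 2) :
    ∃ K : ℕ → IntermediateField ℚ Qb, (∀ j, FiniteDimensional ℚ (K j)) ∧ (∀ j, Stable (K j)) ∧
      Monotone K ∧ (∀ j, finrank ℚ (K j) ≤ 2 ^ (∑ i ∈ Finset.range j, i)) ∧
      (∀ j, ∀ α ∈ K (j + 1), α ∈ bad j → α ∈ K j) ∧ ∀ j, LocProp (pr j) j (K (j + 1)) := by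
  let P : ℕ → IntermediateField ℚ Qb → Prop := fun j K =>
    FiniteDimensional ℚ K ∧ Stable K ∧ finrank ℚ K ≤ 2 ^ (∑ i ∈ Finset.range j, i)
  let X : ℕ → Type := fun j => {K : IntermediateField ℚ Qb // P j K}
  have hstep : ∀ (j : ℕ) (x : X j), ∃ y : X (j + 1), x.1 ≤ y.1 ∧
      (∀ α ∈ y.1, α ∈ bad j → α ∈ x.1) ∧ LocProp (pr j) j y.1 := by
    rintro j ⟨K, hK1, hK2, hK3⟩
    obtain ⟨L, h1, h2, h3, h4, h5⟩ := step K (bad j) (hbad j) (pr j) j (hpr j) (hpr2 j)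
    refine ⟨⟨K ⊔ L, inferInstance, stable_sup K L hK2 h3, ?_⟩, le_sup_left, h4, ?_⟩
    · refine (IntermediateField.finrank_sup_le K L).trans ?_
      rw [Finset.sum_range_succ, pow_add]
      exact Nat.mul_le_mul hK3 h2
    · obtain ⟨q, hq, ζ, e1, e2, e3, e4, e5⟩ := h5
      exact ⟨q, hq, ζ, e1, e2, e3, e4, (le_sup_right : L ≤ K ⊔ L) e5⟩
  let x0 : X 0 := ⟨⊥, by
    refine ⟨inferInstance, ?_, ?_⟩
    · intro σ x hx
      obtain ⟨r, rfl⟩ := IntermediateField.mem_bot.mp hx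
      rw [σ.commutes]
      exact IntermediateField.algebraMap_mem _ r
    · rw [IntermediateField.finrank_bot]
      simp⟩
  let f : ∀ j, X j := fun j => Nat.rec x0 (fun j x => (hstep j x).choose) j
  have hf : ∀ j, (f j).1 ≤ (f (j + 1)).1 ∧ (∀ α ∈ (f (j + 1)).1, α ∈ bad j → α ∈ (f j).1) ∧
      LocProp (pr j) j (f (j + 1)).1 := fun j => (hstep j (f j)).choose_spec
  refine ⟨fun j => (f j).1, fun j => (f j).2.1, fun j => (f j).2.2.1,
    monotone_nat_of_le_succ fun j => (hf j).1, fun j => (f j).2.2.2, fun j => (hf j).2.1,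
    fun j => (hf j).2.2⟩

end Pool.Agent.H58W
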