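import Mathlib
import Pool.Agent.H58W.Tower
import Pool.Agent.H58W.Local
import Pool.Agent.H58W.HtLimit
import Pool.Agent.H58W.HtNorth

set_option autoImplicit false

/-!
# The field
-/

namespace Pool.Agent.H58W

open IntermediateField Polynomial Module NumberField IsDedekindDomain HeightOneSpectrum
open Pool.Agent.Helper259.AbsHt

/-- the degree bounds -/
def Dj (j : ℕ) : ℕ := 2 ^ (∑ i ∈ Finset.range (j + 1), i)

/-- the small numbers to be avoided -/
def badSet (j : ℕ) : Set Qb :=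
  {α | (minpoly ℚ α).natDegree ≤ Dj j ∧ absLogHeight ![1, α] ≤ (j : ℝ) * Dj j + j}

/-- the enumeration of the odd primes -/
def prj (j : ℕ) : ℕ := if (Nat.unpair j).1.Prime ∧ (Nat.unpair j).1 ≠ 2 then (Nat.unpair j).1 else 3

lemma prj_prime (j : ℕ) : (prj j).Prime := by
  unfold prj
  split_ifs with h
  · exact h.1
  · exact Nat.prime_three

lemma prj_ne (j : ℕ) : prj j ≠ 2 := by
  unfold prj
  split_ifs with h
  · exact h.2
  · norm_num

lemma exists_prj (p : ℕ) (hp : p.Prime) (hp2 : p ≠ 2) (n : ℕ) : ∃ j, n ≤ j ∧ prj j = p := by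
  refine ⟨Nat.pair p n, Nat.right_le_pair p n, ?_⟩
  unfold prj
  rw [Nat.unpair_pair]
  simp [hp, hp2]

/-- There is a field `F`, stable under all automorphisms, with the properties needed. -/
theorem exists_field : ∃ F : IntermediateField ℚ Qb, Stable F ∧
    (∀ m : ℕ, {α : Qb | α ∈ F ∧ ∀ D : ℕ, (minpoly ℚ α).natDegree ≤ D →
      absLogHeight ![1, α] ≤ (m : ℝ) * D + m}.Finite) ∧
    ∀ p n : ℕ, p.Prime → p ≠ 2 → ∃ j, n ≤ j ∧ LocProp p j F := by
  obtain ⟨K, h1, h2, h3, h4, h5, h6⟩ := exists_tower badSet (fun j => northcott _ _) prj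
    prj_prime prj_ne
  have hmem : ∀ x : Qb, x ∈ (⨆ j, K j) ↔ ∃ j, x ∈ K j := by
    intro x
    rw [← SetLike.mem_coe, IntermediateField.coe_iSup_of_directed h3.directed_le, Set.mem_iUnion]
    rfl
  have hdeg : ∀ j, ∀ x ∈ K j, (minpoly ℚ x).natDegree ≤ 2 ^ (∑ i ∈ Finset.range j, i) := by
    intro j x hx
    have := h1 j
    refine le_trans ?_ (h4 j)
    have e : minpoly ℚ x = minpoly ℚ (⟨x, hx⟩ : K j) := by
      rw [← minpoly.algebraMap_eq (algebraMap (K j) Qb).injective]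
      rfl
    rw [e]
    exact minpoly.natDegree_le _
  refine ⟨⨆ j, K j, ?_, ?_, ?_⟩
  · intro σ x hx
    obtain ⟨j, hj⟩ := (hmem x).mp hx
    exact (hmem _).mpr ⟨j, h2 j σ x hj⟩
  · intro m
    refine (northcott (2 ^ (∑ i ∈ Finset.range m, i))
      ((m : ℝ) * (2 ^ (∑ i ∈ Finset.range m, i) : ℕ) + m)).subset ?_
    rintro α ⟨hα, hα2⟩
    have hαm : α ∈ K m := by
      obtain ⟨j, hj⟩ := (hmem α).mp hα
      induction j with
      | zero => exact h3 (Nat.zero_le m) hj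
      | succ j ih =>
        by_cases hjm : j + 1 ≤ m
        · exact h3 hjm hj
        · apply ih
          apply h5 j α hj
          refine ⟨hdeg (j + 1) α hj, ?_⟩
          have h7 := hα2 (Dj j) (hdeg (j + 1) α hj)
          have h8 : (m : ℝ) ≤ j := by exact_mod_cast (by omega : m ≤ j)
          have h9 : (0 : ℝ) ≤ Dj j := Nat.cast_nonneg _
          nlinarith
    exact ⟨hdeg m α hαm, hα2 _ (hdeg m α hαm)⟩
  · intro p n hp hp2
    obtain ⟨j, hj1, hj2⟩ := exists_prj p hp hp2 n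
    refine ⟨j, hj1, ?_⟩
    obtain ⟨q, hq, ζ, e1, e2, e3, e4, e5⟩ := h6 j
    rw [hj2] at e2 e4
    exact ⟨q, hq, ζ, e1, e2, e3, e4, (hmem _).mpr ⟨j + 1, e5⟩⟩

/-- a rational prime below a prime ideal -/
lemma exists_prime_mem {K : Type*} [Field K] [NumberField K] (v : HeightOneSpectrum (𝓞 K)) :
    ∃ p : ℕ, p.Prime ∧ (p : 𝓞 K) ∈ v.asIdeal := by
  classical
  have hex : ∃ n : ℕ, 0 < n ∧ (n : 𝓞 K) ∈ v.asIdeal := by
    refine ⟨Ideal.absNorm v.asIdeal, Nat.pos_of_ne_zero ?_, Ideal.absNorm_mem _⟩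
    rw [Ne, Ideal.absNorm_eq_zero_iff]
    exact v.ne_bot
  set n := Nat.find hex with hn
  obtain ⟨hn0, hn1⟩ := Nat.find_spec hex
  rw [← hn] at hn0 hn1
  refine ⟨n, ?_, hn1⟩
  have hmin : ∀ m : ℕ, 0 < m → (m : 𝓞 K) ∈ v.asIdeal → n ≤ m := fun m h1 h2 =>
    Nat.find_min' hex ⟨h1, h2⟩
  have hne1 : n ≠ 1 := by
    intro h
    rw [h, Nat.cast_one] at hn1
    exact v.isPrime.ne_top ((Ideal.eq_top_iff_one _).mpr hn1)
  by_contra hnp
  obtain ⟨a, ha1, ha2, ha3⟩ := Nat.exists_dvd_of_not_prime2 (by omega) hnp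
  obtain ⟨b, hb⟩ := ha1
  have hb0 : 0 < b := by
    rcases Nat.eq_zero_or_pos b with h | h
    · rw [h, mul_zero] at hb; omega
    · exact h
  rw [hb, Nat.cast_mul] at hn1
  rcases v.isPrime.mem_or_mem hn1 with h | h
  · have := hmin a (by omega) h
    omega
  · have h7 := hmin b hb0 h
    have h8 : b * 2 ≤ b * a := Nat.mul_le_mul_left _ ha2
    have h9 : b * a = n := by rw [hb]; ring
    omega

end Pool.Agent.H58W
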