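import Mathlib
import Pool.Agent.H58W.Final
set_option autoImplicit false
namespace Pool.Agent.H58W
open IntermediateField Polynomial Module NumberField IsDedekindDomain HeightOneSpectrum
open Pool.Agent.Helper259.AbsHt

lemma gal_of_stable (F₀ : IntermediateField ℚ (AlgebraicClosure ℚ)) (hst : Stable F₀) :
    IsGalois (⊥ : IntermediateField ℚ (AlgebraicClosure ℚ))
      (IntermediateField.extendScalars (bot_le : ⊥ ≤ F₀)) := by
  set F := IntermediateField.extendScalars (bot_le : ⊥ ≤ F₀) with hF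
  have halg : Algebra.IsAlgebraic (⊥ : IntermediateField ℚ (AlgebraicClosure ℚ))
      (AlgebraicClosure ℚ) := Algebra.IsAlgebraic.tower_top (K := ℚ) _
  have hcl : IsAlgClosure (⊥ : IntermediateField ℚ (AlgebraicClosure ℚ))
      (AlgebraicClosure ℚ) := ⟨inferInstance, halg⟩
  have hnorm : Normal (⊥ : IntermediateField ℚ (AlgebraicClosure ℚ)) F := by
    rw [IntermediateField.normal_iff_forall_map_le']
    intro σ
    rintro _ ⟨x, hx, rfl⟩
    have hx' : x ∈ F₀ := hx
    exact hst (σ.restrictScalars ℚ) x hx'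
  have hsep : Algebra.IsSeparable (⊥ : IntermediateField ℚ (AlgebraicClosure ℚ)) F :=
    inferInstance
  exact ⟨⟩

theorem finite_places (F₀ : IntermediateField ℚ (AlgebraicClosure ℚ))
    [NumberField (⊥ : IntermediateField ℚ (AlgebraicClosure ℚ))]
    (hloc : ∀ p n : ℕ, p.Prime → p ≠ 2 → ∃ j, n ≤ j ∧ LocProp p j F₀) :
    {v : IsDedekindDomain.HeightOneSpectrum (NumberField.RingOfIntegers
      (⊥ : IntermediateField ℚ (AlgebraicClosure ℚ))) |
        ∀ ι : AlgebraicClosure ℚ →ₐ[(⊥ : IntermediateField ℚ (AlgebraicClosure ℚ))]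
          AlgebraicClosure (v.adicCompletion (⊥ : IntermediateField ℚ (AlgebraicClosure ℚ))),
          FiniteDimensional (v.adicCompletion (⊥ : IntermediateField ℚ (AlgebraicClosure ℚ)))
            (IntermediateField.adjoin
              (v.adicCompletion (⊥ : IntermediateField ℚ (AlgebraicClosure ℚ)))
              (ι '' ((IntermediateField.extendScalars (bot_le : ⊥ ≤ F₀) :
                IntermediateField (⊥ : IntermediateField ℚ (AlgebraicClosure ℚ))
                  (AlgebraicClosure ℚ)) : Set (AlgebraicClosure ℚ))))}.Finite := by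
  have halg : Algebra.IsAlgebraic (⊥ : IntermediateField ℚ (AlgebraicClosure ℚ))
      (AlgebraicClosure ℚ) := Algebra.IsAlgebraic.tower_top (K := ℚ) _
  have h2 : (2 : 𝓞 (⊥ : IntermediateField ℚ (AlgebraicClosure ℚ))) ≠ 0 := two_ne_zero
  have hfin : {v : HeightOneSpectrum (𝓞 (⊥ : IntermediateField ℚ (AlgebraicClosure ℚ))) |
      v.asIdeal ∣ Ideal.span {(2 : 𝓞 (⊥ : IntermediateField ℚ (AlgebraicClosure ℚ)))}}.Finite := by
    apply Ideal.finite_factors
    rwa [Ne, Ideal.zero_eq_bot, Ideal.span_singleton_eq_bot]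
  refine hfin.subset ?_
  intro v hv
  rw [Set.mem_ofPred_eq, Ideal.dvd_span_singleton]
  by_contra hv2
  obtain ⟨p, hp, hpv⟩ := exists_prime_mem v
  have hp2 : p ≠ 2 := by
    rintro rfl
    exact hv2 (by exact_mod_cast hpv)
  let ι : AlgebraicClosure ℚ →ₐ[(⊥ : IntermediateField ℚ (AlgebraicClosure ℚ))]
      AlgebraicClosure (v.adicCompletion (⊥ : IntermediateField ℚ (AlgebraicClosure ℚ))) :=
    IsAlgClosed.lift
  have hfd := hv ι
  set W := IntermediateField.adjoin
      (v.adicCompletion (⊥ : IntermediateField ℚ (AlgebraicClosure ℚ)))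
      (ι '' ((IntermediateField.extendScalars (bot_le : ⊥ ≤ F₀) :
        IntermediateField (⊥ : IntermediateField ℚ (AlgebraicClosure ℚ))
          (AlgebraicClosure ℚ)) : Set (AlgebraicClosure ℚ))) with hW
  set D := finrank (v.adicCompletion (⊥ : IntermediateField ℚ (AlgebraicClosure ℚ))) W with hD
  obtain ⟨j, hj, q, hq, ζ, hζ, hpq, hn, hns, hmem⟩ := hloc p D hp hp2
  have hpF : Fact p.Prime := ⟨hp⟩
  have hrat : ∀ k : (⊥ : IntermediateField ℚ (AlgebraicClosure ℚ)), ∃ r : ℚ,
      algebraMap ℚ (⊥ : IntermediateField ℚ (AlgebraicClosure ℚ)) r = k := by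
    rintro ⟨k, hk⟩
    obtain ⟨r, hr⟩ := IntermediateField.mem_bot.mp hk
    exact ⟨r, Subtype.ext hr⟩
  have h3 := local_degree v p hrat hpv q j hpq hn hns (ι ζ) (hζ.map_of_injective ι.injective)
  have h4 : ι (per q j ζ 1) = per q j (ι ζ) 1 := map_per q j ι.toRingHom ζ 1
  have h5 : per q j (ι ζ) 1 ∈ W := by
    rw [← h4]
    exact IntermediateField.subset_adjoin _ _ ⟨_, hmem, rfl⟩
  have h6 : (minpoly (v.adicCompletion (⊥ : IntermediateField ℚ (AlgebraicClosure ℚ)))
      (per q j (ι ζ) 1)).natDegree ≤ D := by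
    have e : minpoly (v.adicCompletion (⊥ : IntermediateField ℚ (AlgebraicClosure ℚ)))
        (per q j (ι ζ) 1) = minpoly _ (⟨_, h5⟩ : W) := by
      rw [← minpoly.algebraMap_eq (algebraMap W (AlgebraicClosure (v.adicCompletion
        (⊥ : IntermediateField ℚ (AlgebraicClosure ℚ))))).injective]
      rfl
    rw [e]
    exact minpoly.natDegree_le _
  have h7 : D < 2 ^ j := hj.trans_lt Nat.lt_two_pow_self
  omega

end Pool.Agent.H58W
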